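import Pool.Agent.helper55.BL.Spec

set_option autoImplicit false

namespace Pool.Agent.helper55.BL

open Finset
open scoped Classical
open Pool.Agent.helper61.BM (Clo dg)

/-- closed path as a function -/
structure DIB_Cyc {V : Type} (G : SimpleGraph V) (M : ℕ) (c : ℕ → V) : Prop where
  inj : ∀ s t, s ≤ M → t ≤ M → c s = c t → s = t
  adj : ∀ s, s < M → G.Adj (c s) (c (s + 1))
  clo : G.Adj (c M) (c 0)

theorem DIB_list {V : Type} {G : SimpleGraph V} {M : ℕ} {c : ℕ → V} (h : DIB_Cyc G M c) :
    ∃ l : List V, Clo G l ∧ l.length = M + 1 := by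
  refine ⟨(List.range (M + 1)).map c, ⟨?_, ?_, ?_⟩, by rw [List.length_map, List.length_range]⟩
  · refine List.Nodup.map_on ?_ List.nodup_range
    intro x hx y hy hxy
    rw [List.mem_range] at hx hy
    exact h.inj x y (by omega) (by omega) hxy
  · rw [List.isChain_map, List.isChain_range]
    intro t ht
    exact h.adj t (by omega)
  · intro x hx y hy
    rw [List.head?_map, List.head?_range] at hx
    rw [List.getLast?_map, List.getLast?_range] at hy
    simp only [Nat.add_eq_zero_iff, one_ne_zero, and_false, if_false, Option.map_some,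
      Option.mem_def, Option.some.injEq, Nat.add_sub_cancel] at hx hy
    rw [← hx, ← hy]
    exact h.clo

/-- the closed path `p 0, …, p i, p m, …, p j` -/
theorem DIB_cyc {V : Type} {G : SimpleGraph V} {m : ℕ} {p : ℕ → V} (hp : Pth G m p) {i j : ℕ}
    (hij : i < j) (hj : j ≤ m) (h1 : G.Adj (p m) (p i)) (h2 : G.Adj (p 0) (p j)) :
    DIB_Cyc G (i + 1 + (m - j)) (fun t => if t ≤ i then p t else p (m + i + 1 - t)) := by
  refine ⟨?_, ?_, ?_⟩
  · intro s t hs ht hst
    beta_reduce at hst
    by_cases hsi : s ≤ i
    · by_cases hti : t ≤ i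
      · rw [if_pos hsi, if_pos hti] at hst
        exact hp.inj s t (by omega) (by omega) hst
      · rw [if_pos hsi, if_neg hti] at hst
        have := hp.inj _ _ (by omega) (by omega) hst
        omega
    · by_cases hti : t ≤ i
      · rw [if_neg hsi, if_pos hti] at hst
        have := hp.inj _ _ (by omega) (by omega) hst
        omega
      · rw [if_neg hsi, if_neg hti] at hst
        have := hp.inj _ _ (by omega) (by omega) hst
        omega
  · intro s hs
    beta_reduce
    by_cases hsi : s < i
    · rw [if_pos (by omega), if_pos (by omega)]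
      exact hp.adj s (by omega)
    · by_cases hsi' : s = i
      · subst hsi'
        rw [if_pos (le_refl s), if_neg (by omega)]
        have e : m + s + 1 - (s + 1) = m := by omega
        rw [e]
        exact h1.symm
      · rw [if_neg (by omega), if_neg (by omega)]
        have e : m + i + 1 - s = (m + i + 1 - (s + 1)) + 1 := by omega
        rw [e]
        exact (hp.adj _ (by omega)).symm
  · beta_reduce
    rw [if_neg (by omega), if_pos (Nat.zero_le i)]
    have e : m + i + 1 - (i + 1 + (m - j)) = j := by omega
    rw [e]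
    exact h2.symm

/-- a closed path with an adjacent vertex outside gives a longer path -/
theorem DIB_ext {V : Type} {G : SimpleGraph V} {M : ℕ} {c : ℕ → V} (h : DIB_Cyc G M c) (u : V) (s : ℕ)
    (hs : s ≤ M) (hu : ∀ t, t ≤ M → c t ≠ u) (ha : G.Adj u (c s)) : ∃ q : ℕ → V, Pth G (M + 1) q := by
  refine ⟨fun t => if t = 0 then u else c ((s + (t - 1)) % (M + 1)), ?_, ?_⟩
  · intro a b ha' hb' hab
    beta_reduce at hab
    by_cases ha0 : a = 0
    · by_cases hb0 : b = 0
      · rw [ha0, hb0]
      · rw [if_pos ha0, if_neg hb0] at hab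
        exact absurd hab.symm (hu _ (Nat.lt_succ_iff.1 (Nat.mod_lt _ (Nat.succ_pos M))))
    · by_cases hb0 : b = 0
      · rw [if_neg ha0, if_pos hb0] at hab
        exact absurd hab (hu _ (Nat.lt_succ_iff.1 (Nat.mod_lt _ (Nat.succ_pos M))))
      · rw [if_neg ha0, if_neg hb0] at hab
        have h1 := h.inj _ _ (Nat.lt_succ_iff.1 (Nat.mod_lt _ (Nat.succ_pos M)))
          (Nat.lt_succ_iff.1 (Nat.mod_lt _ (Nat.succ_pos M))) hab
        have h2 : (a - 1) ≡ (b - 1) [MOD (M + 1)] := Nat.ModEq.add_left_cancel' s h1
        have h3 := Nat.ModEq.eq_of_lt_of_lt h2 (by omega) (by omega)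
        omega
  · intro a ha'
    beta_reduce
    by_cases ha0 : a = 0
    · subst ha0
      rw [if_pos rfl, if_neg (by omega)]
      have e : (s + (0 + 1 - 1)) % (M + 1) = s := by
        rw [Nat.zero_add, Nat.sub_self, Nat.add_zero, Nat.mod_eq_of_lt (by omega)]
      rw [e]
      exact ha
    · rw [if_neg ha0, if_neg (by omega)]
      obtain ⟨b, rfl⟩ : ∃ b, a = b + 1 := ⟨a - 1, by omega⟩
      have e1 : b + 1 - 1 = b := by omega
      have e2 : b + 1 + 1 - 1 = b + 1 := by omega
      rw [e1, e2]
      have hlt : (s + b) % (M + 1) < M + 1 := Nat.mod_lt _ (Nat.succ_pos M)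
      by_cases h1 : (s + b) % (M + 1) = M
      · have h2 : (s + (b + 1)) % (M + 1) = 0 := by
          rw [← Nat.add_assoc, Nat.add_mod, h1]
          by_cases hM : M = 0
          · subst hM
            omega
          · rw [Nat.mod_eq_of_lt (show 1 < M + 1 by omega), Nat.mod_self]
        rw [h1, h2]
        exact h.clo
      · have h2 : (s + (b + 1)) % (M + 1) = (s + b) % (M + 1) + 1 := by
          rw [← Nat.add_assoc, Nat.add_mod]
          by_cases hM : M = 0
          · subst hM
            omega
          · rw [Nat.mod_eq_of_lt (show 1 < M + 1 by omega), Nat.mod_eq_of_lt (by omega)]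
        rw [h2]
        exact h.adj _ (by omega)

theorem DIB : DIB_stmt := by
  intro V _ G m p k i j hTwo h3 hk hp hmax hn0 hnm hij hjm hmi h0j hk0 hkm
  -- a pair with minimal difference
  have hex : ∃ d : ℕ, ∃ i j : ℕ, i < j ∧ j ≤ m ∧ G.Adj (p m) (p i) ∧ G.Adj (p 0) (p j) ∧
      j - i = d := ⟨j - i, i, j, hij, hjm, hmi, h0j, rfl⟩
  obtain ⟨i, j, hij, hjm, hmi, h0j, hd⟩ := Nat.find_spec hex
  have hmin : ∀ i' j' : ℕ, i' < j' → j' ≤ m → G.Adj (p m) (p i') → G.Adj (p 0) (p j') →
      j - i ≤ j' - i' := by
    intro i' j' h1 h2 h3 h4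
    rw [hd]
    exact Nat.find_min' hex ⟨i', j', h1, h2, h3, h4, rfl⟩
  have hcyc := DIB_cyc hp hij hjm hmi h0j
  by_cases hcase : j = i + 1
  · subst hcase
    have hM : i + 1 + (m - (i + 1)) = m := by omega
    rw [hM] at hcyc
    obtain ⟨l, hl, hlen⟩ := DIB_list hcyc
    refine ⟨l, hl, ?_⟩
    rw [hlen]
    refine hk.trans ?_
    -- all vertices are on the path
    have hall : ∀ v : V, ∃ t, t ≤ m ∧ p t = v := by
      by_contra hcon
      have hcon' : ∃ v : V, ∀ t, t ≤ m → p t ≠ v := by
        by_contra h1
        apply hcon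
        intro v
        by_contra h2
        exact h1 ⟨v, fun t ht hv => h2 ⟨t, ht, hv⟩⟩
      obtain ⟨v, hv⟩ := hcon'
      obtain ⟨u, huA, w, hwA, -, huw⟩ := hTwo (p 0)
        ((univ : Finset V).filter (fun v => ∀ t, t ≤ m → p t ≠ v))
        (by
          intro h1
          exact (mem_filter.1 h1).2 0 (Nat.zero_le m) rfl)
        ⟨v, mem_filter.2 ⟨mem_univ v, hv⟩⟩
        ⟨p m, by
          intro h1
          exact (mem_filter.1 h1).2 m (le_refl m) rfl, by
          intro h1
          have := hp.inj m 0 (le_refl m) (Nat.zero_le m) h1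
          omega⟩
      have hu : ∀ t, t ≤ m → p t ≠ u := (mem_filter.1 huA).2
      have hw : ∃ t, t ≤ m ∧ p t = w := by
        by_contra h1
        apply hwA
        exact mem_filter.2 ⟨mem_univ w, fun t ht hv => h1 ⟨t, ht, hv⟩⟩
      obtain ⟨t, ht, rfl⟩ := hw
      -- the position of `p t` on the closed path
      obtain ⟨s, hs, hst⟩ : ∃ s, s ≤ m ∧
          (fun t => if t ≤ i then p t else p (m + i + 1 - t)) s = p t := by
        by_cases hti : t ≤ i
        · exact ⟨t, ht, if_pos hti⟩
        · refine ⟨m + i + 1 - t, by omega, ?_⟩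
          beta_reduce
          rw [if_neg (by omega)]
          congr 1
          omega
      beta_reduce at hst
      obtain ⟨q, hq⟩ := DIB_ext hcyc u s hs (by
        intro t' ht'
        beta_reduce
        by_cases h1 : t' ≤ i
        · rw [if_pos h1]
          exact hu _ ht'
        · rw [if_neg h1]
          exact hu _ (by omega)) (by
        rw [hst]
        exact huw)
      exact hmax q hq
    have h4 : (univ : Finset V) ⊆ (range (m + 1)).image p := by
      intro v _
      obtain ⟨t, ht, hv⟩ := hall v
      exact mem_image.2 ⟨t, mem_range.2 (by omega), hv⟩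
    have h5 := card_le_card h4
    rw [card_univ] at h5
    refine h5.trans (card_image_le.trans ?_)
    rw [card_range]
  · obtain ⟨l, hl, hlen⟩ := DIB_list hcyc
    refine ⟨l, hl, ?_⟩
    rw [hlen]
    have hNm : k ≤ ((range (m + 1)).filter (fun t => G.Adj (p m) (p t))).card := by
      refine hkm.trans ?_
      unfold dg
      refine (card_le_card (t := ((range (m + 1)).filter (fun t => G.Adj (p m) (p t))).image p) ?_).trans
        card_image_le
      intro v hv
      have hv' := (mem_filter.1 hv).2
      obtain ⟨t, ht, rfl⟩ := hnm v hv'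
      exact mem_image.2 ⟨t, mem_filter.2 ⟨mem_range.2 (by omega), hv'⟩, rfl⟩
    have hN0 : k ≤ ((range (m + 1)).filter (fun t => G.Adj (p 0) (p t))).card := by
      refine hk0.trans ?_
      unfold dg
      refine (card_le_card (t := ((range (m + 1)).filter (fun t => G.Adj (p 0) (p t))).image p) ?_).trans
        card_image_le
      intro v hv
      have hv' := (mem_filter.1 hv).2
      obtain ⟨t, ht, rfl⟩ := hn0 v hv'
      exact mem_image.2 ⟨t, mem_filter.2 ⟨mem_range.2 (by omega), hv'⟩, rfl⟩
    set Nm := (range (m + 1)).filter (fun t => G.Adj (p m) (p t)) with hNmdef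
    set N0 := (range (m + 1)).filter (fun t => G.Adj (p 0) (p t)) with hN0def
    have hN0pos : ∀ t ∈ N0, 1 ≤ t := by
      intro t ht
      have h1 := (mem_filter.1 ht).2
      by_contra h2
      have h3 : t = 0 := by omega
      rw [h3] at h1
      exact G.irrefl h1
    have hcard0 : k - 1 ≤ ((N0.erase j).image (fun t => t - 1)).card := by
      rw [card_image_of_injOn]
      · have hjN : j ∈ N0 := mem_filter.2 ⟨mem_range.2 (by omega), h0j⟩
        rw [card_erase_of_mem hjN]
        omega
      · intro a ha b hb hab
        have h1 := hN0pos a (mem_of_mem_erase (mem_coe.1 ha))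
        have h2 := hN0pos b (mem_of_mem_erase (mem_coe.1 hb))
        beta_reduce at hab
        omega
    have hdisj : Disjoint Nm ((N0.erase j).image (fun t => t - 1)) := by
      rw [disjoint_left]
      intro t ht ht'
      obtain ⟨t', ht1, ht2⟩ := mem_image.1 ht'
      have h1 := hN0pos t' (mem_of_mem_erase ht1)
      have h2 := (mem_filter.1 (mem_of_mem_erase ht1))
      have h3 := (mem_filter.1 ht).2
      have h4 : t' = t + 1 := by omega
      rw [h4] at h2
      have h5 := hmin t (t + 1) (by omega) (by have := mem_range.1 h2.1; omega) h3 h2.2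
      omega
    have hm : m ∉ Nm ∪ (N0.erase j).image (fun t => t - 1) := by
      rw [mem_union, not_or]
      constructor
      · intro h1
        exact G.irrefl (mem_filter.1 h1).2
      · intro h1
        obtain ⟨t', ht1, ht2⟩ := mem_image.1 h1
        have h2 := mem_range.1 (mem_filter.1 (mem_of_mem_erase ht1)).1
        have h3 := hN0pos t' (mem_of_mem_erase ht1)
        omega
    have hsub : insert m (Nm ∪ (N0.erase j).image (fun t => t - 1)) ⊆
        range (i + 1) ∪ Finset.Icc j m := by
      intro t ht
      rw [mem_union, mem_range, Finset.mem_Icc]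
      rcases mem_insert.1 ht with rfl | ht
      · exact Or.inr ⟨hjm, le_refl _⟩
      rcases mem_union.1 ht with ht | ht
      · have h1 := mem_filter.1 ht
        have h2 := mem_range.1 h1.1
        by_contra h3
        have h4 : i < t ∧ t < j := by omega
        have h5 := hmin t j h4.2 hjm h1.2 h0j
        omega
      · obtain ⟨t', ht1, ht2⟩ := mem_image.1 ht
        have h1 := hN0pos t' (mem_of_mem_erase ht1)
        have h2 := mem_filter.1 (mem_of_mem_erase ht1)
        have h3 := mem_range.1 h2.1
        have h4 := ne_of_mem_erase ht1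
        by_contra h5
        have h6 : i < t' ∧ t' < j := by omega
        have h7 := hmin i t' h6.1 (by omega) hmi h2.2
        omega
    have h6 := card_le_card hsub
    rw [card_insert_of_notMem hm, card_union_of_disjoint hdisj] at h6
    have h7 := card_union_le (range (i + 1)) (Finset.Icc j m)
    rw [card_range, Nat.card_Icc] at h7
    omega

end Pool.Agent.helper55.BL
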