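import Pool.Agent.helper80.SG.Spec3

set_option autoImplicit false

namespace Pool.Agent.SG

open Pool.Agent.SV

theorem mfa_choose_ge (n d : ℕ) (hd : 1 ≤ d) : n + 1 ≤ (n + d).choose n := by
  calc n + 1 = (n + 1).choose n := (Nat.choose_succ_self_right n).symm
    _ ≤ (n + d).choose n := Nat.choose_le_choose n (by omega)

theorem mfa_choose2 (n : ℕ) (hn : 1 ≤ n) : n ≤ (n + 2 - 2).choose (n - 1) := by
  obtain ⟨m, rfl⟩ : ∃ m, n = m + 1 := ⟨n - 1, by omega⟩
  have h : (m + 1 + 2 - 2).choose (m + 1 - 1) = m + 1 := by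
    have : m + 1 + 2 - 2 = m + 1 := by omega
    rw [this]
    have : m + 1 - 1 = m := by omega
    rw [this, Nat.choose_succ_self_right]
  rw [h]

theorem mfa_choose3 (n d : ℕ) (hn : 1 ≤ n) (hd : 3 ≤ d) :
    n * (n + 1) ≤ 2 * (n + d - 2).choose (n - 1) := by
  obtain ⟨m, rfl⟩ : ∃ m, n = m + 1 := ⟨n - 1, by omega⟩
  have h1 : (m + 2).choose m ≤ (m + 1 + d - 2).choose (m + 1 - 1) := by
    have : m + 1 - 1 = m := by omega
    rw [this]
    exact Nat.choose_le_choose m (by omega)
  have h2 : (m + 2).choose m = (m + 2).choose 2 := by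
    rw [Nat.choose_symm_add]
  have h3 : 2 * (m + 2).choose 2 = (m + 2) * (m + 1) := by
    have := Nat.triangle_succ (m + 1)
    rw [Nat.choose_two_right]
    have h4 : m + 2 - 1 = m + 1 := by omega
    rw [h4]
    have h5 : 2 ∣ (m + 2) * (m + 1) := by
      have := Nat.even_mul_succ_self (m + 1)
      rw [mul_comm]
      exact this.two_dvd
    exact Nat.mul_div_cancel' h5
  rw [h2] at h1
  nlinarith

theorem MFA (hT : THR_stmt) (hS : ST2_stmt) : MFA_stmt := by
  intro k n d hn hd hP hne
  set N : ℕ := ∑ i, n i with hN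
  have hnle : ∀ i, n i ≤ N := fun i =>
    Finset.single_le_sum (f := n) (fun _ _ => Nat.zero_le _) (Finset.mem_univ i)
  -- k ≥ 4
  have hk : 4 ≤ k := by
    by_contra hk
    have h1 : ∏ i, (n i + 1) ≤ (N + 1) ^ k := by
      have := Finset.prod_le_pow_card (Finset.univ : Finset (Fin k)) (fun i => n i + 1) (N + 1)
        (fun i _ => by simpa using hnle i)
      simpa using this
    have h2 : (N + 1) ^ k ≤ (N + 1) ^ 3 := Nat.pow_le_pow_right (by omega) (by omega)
    have h3 : 0 < (N + 1) ^ 3 := by positivity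
    omega
  have hQ : ∀ j, (n j + 1) * ∏ i ∈ Finset.univ.erase j, (n i + 1) = ∏ i, (n i + 1) := fun j =>
    Finset.mul_prod_erase Finset.univ (fun i => n i + 1) (Finset.mem_univ j)
  have hE : ∀ j, ∏ i ∈ Finset.univ.erase j, (n i + 1) ≤
      ∏ i ∈ Finset.univ.erase j, (n i + d i).choose (n i) := fun j =>
    Finset.prod_le_prod' (fun i _ => mfa_choose_ge _ _ (hd i))
  have hNj : ∀ j, n j + ∑ i ∈ Finset.univ.erase j, n i = N := fun j =>
    Finset.add_sum_erase Finset.univ n (Finset.mem_univ j)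
  have hge3 : ∀ j, 3 ≤ N - n j := by
    intro j
    have h1 : (Finset.univ.erase j).card • 1 ≤ ∑ i ∈ Finset.univ.erase j, n i :=
      Finset.card_nsmul_le_sum _ _ _ (fun i _ => hn i)
    have h2 : (Finset.univ.erase j).card = k - 1 := by
      rw [Finset.card_erase_of_mem (Finset.mem_univ j)]; simp
    rw [h2] at h1
    have h3 := hNj j
    simp only [smul_eq_mul, mul_one] at h1
    omega
  by_cases h3 : ∃ j, 3 ≤ d j
  · obtain ⟨j, hj⟩ := h3
    refine hT k n d (by omega) hn hd j (Or.inl ⟨hj, ?_⟩)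
    have h1 := mfa_choose3 (n j) (d j) (hn j) hj
    have h2 : (n j * (n j + 1)) * ∏ i ∈ Finset.univ.erase j, (n i + 1) ≤ 2 * SV.hj n d j := by
      unfold SV.hj
      calc (n j * (n j + 1)) * ∏ i ∈ Finset.univ.erase j, (n i + 1)
          ≤ (2 * (n j + d j - 2).choose (n j - 1)) *
            ∏ i ∈ Finset.univ.erase j, (n i + d i).choose (n i) := Nat.mul_le_mul h1 (hE j)
        _ = 2 * ((n j + d j - 2).choose (n j - 1) *
            ∏ i ∈ Finset.univ.erase j, (n i + d i).choose (n i)) := by ring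
    have h4 : ∏ i, (n i + 1) ≤ n j * ((n j + 1) * ∏ i ∈ Finset.univ.erase j, (n i + 1)) := by
      rw [hQ j]; exact Nat.le_mul_of_pos_left _ (hn j)
    have h5 : n j * ((n j + 1) * ∏ i ∈ Finset.univ.erase j, (n i + 1)) =
      (n j * (n j + 1)) * ∏ i ∈ Finset.univ.erase j, (n i + 1) := by ring
    rw [← hN]
    omega
  · have h3' : ∀ i, d i ≤ 2 := fun i => by
      by_contra h
      exact h3 ⟨i, by omega⟩
    by_cases h2 : ∃ j, d j = 2
    · obtain ⟨j, hj⟩ := h2
      refine hT k n d (by omega) hn hd j (Or.inr ⟨hj, ?_⟩)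
      have h1 : n j * ∏ i ∈ Finset.univ.erase j, (n i + 1) ≤ SV.hj n d j := by
        unfold SV.hj
        rw [hj]
        exact Nat.mul_le_mul (mfa_choose2 _ (hn j)) (hE j)
      have h4 : ∏ i, (n i + 1) ≤ 2 * (n j * ∏ i ∈ Finset.univ.erase j, (n i + 1)) := by
        rw [← hQ j, ← mul_assoc]
        exact Nat.mul_le_mul_right _ (by have := hn j; omega)
      have h5 : 2 * (N + 1) ^ 3 ≤ SV.hj n d j := by omega
      have h6 := hge3 j
      calc (N - n j + 1) * (N + 1) ^ 3 ≤ (2 * (N - n j - 1)) * (N + 1) ^ 3 :=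
            Nat.mul_le_mul_right _ (by omega)
        _ = (N - n j - 1) * (2 * (N + 1) ^ 3) := by ring
        _ ≤ (N - n j - 1) * SV.hj n d j := Nat.mul_le_mul_left _ h5
    · have hd1 : ∀ i, d i = 1 := fun i => by
        have := hd i
        have := h3' i
        by_contra h
        exact h2 ⟨i, by omega⟩
      have : ∃ j, 2 ≤ n j := by
        by_contra h
        push Not at h
        exact hne (fun i => ⟨by have := hn i; have := h i; omega, hd1 i⟩)
      obtain ⟨j, hj2⟩ := this
      obtain ⟨T, hTs, hTc⟩ : ∃ T ⊆ (Finset.univ.erase j : Finset (Fin k)), T.card = 3 := by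
        apply Finset.exists_subset_card_eq
        rw [Finset.card_erase_of_mem (Finset.mem_univ j)]
        simp; omega
      refine hS k n d hn hd j (hd1 j) hj2 T (fun h => by simpa using hTs h) ?_ ?_
      · simp [hd1, hTc]
      · have h1 : n j * ∏ i ∈ Finset.univ.erase j, (n i + 1) ≤
            n j * ∏ i ∈ Finset.univ.erase j, (n i + d i).choose (n i) :=
          Nat.mul_le_mul_left _ (hE j)
        refine le_trans ?_ h1
        have h4 : 2 * ∏ i, (n i + 1) ≤ 3 * (n j * ∏ i ∈ Finset.univ.erase j, (n i + 1)) := by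
          rw [← hQ j]
          have : 2 * ((n j + 1) * ∏ i ∈ Finset.univ.erase j, (n i + 1)) =
            (2 * (n j + 1)) * ∏ i ∈ Finset.univ.erase j, (n i + 1) := by ring
          rw [this]
          have : 3 * (n j * ∏ i ∈ Finset.univ.erase j, (n i + 1)) =
            (3 * n j) * ∏ i ∈ Finset.univ.erase j, (n i + 1) := by ring
          rw [this]
          exact Nat.mul_le_mul_right _ (by omega)
        have h5 : (N + 1) * (N - n j + 1) * (2 * (N - n j) + 3 * n j + 3) ≤ 2 * (N + 1) ^ 3 := by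
          obtain ⟨a, ha⟩ : ∃ a, N = n j + a := ⟨N - n j, by have := hnle j; omega⟩
          have ha' : N - n j = a := by omega
          rw [ha', ha]
          generalize n j = m at *
          have : (a + 1) * (2 * a + 3 * m + 3) ≤ 2 * (m + a + 1) ^ 2 := by nlinarith
          calc (m + a + 1) * (a + 1) * (2 * a + 3 * m + 3)
              = (m + a + 1) * ((a + 1) * (2 * a + 3 * m + 3)) := by ring
            _ ≤ (m + a + 1) * (2 * (m + a + 1) ^ 2) := Nat.mul_le_mul_left _ this
            _ = 2 * (m + a + 1) ^ 3 := by ring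
        have h6 : 0 < (N + 1) ^ 3 := by positivity
        rw [← hN]
        refine le_trans h5 ?_
        omega

end Pool.Agent.SG
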